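import Pool.Agent.Q17.RR.Stm2

/-!
# Project RR of helper17, job BRF: a reduction for a given valuation ring
-/

set_option autoImplicit false

open scoped Classical

noncomputable section

namespace Pool.Agent.Q102.RR

open Pool.Agent.Q17.RR

theorem t_BRF : S_BRF := by
  intro p hp O hpO
  have hpp : p.Prime := hp.out
  have hint : ∀ x : ℂ, IsIntegral O x → x ∈ O := by
    intro x hx
    obtain ⟨y, hy⟩ := IsIntegrallyClosed.isIntegral_iff.1 hx
    rw [← hy]
    exact y.2
  have hA : ∀ a : integralClosure ℤ ℂ, (a : ℂ) ∈ O := by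
    intro a
    apply hint
    have h1 : IsIntegral ℤ (a : ℂ) := a.2
    exact h1.tower_top
  let i : integralClosure ℤ ℂ →+* O :=
    { toFun := fun a => ⟨a, hA a⟩
      map_one' := rfl
      map_mul' := fun _ _ => rfl
      map_zero' := rfl
      map_add' := fun _ _ => rfl }
  have hres : ∀ x : O, (x : ℂ) ∈ O.nonunits ↔ IsLocalRing.residue O x = 0 := by
    intro x
    rw [IsLocalRing.residue_eq_zero_iff]
    constructor
    · intro h
      rw [ValuationSubring.mem_nonunits_iff_exists_mem_maximalIdeal] at h
      obtain ⟨hx, h⟩ := h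
      exact h
    · intro h
      rw [ValuationSubring.mem_nonunits_iff_exists_mem_maximalIdeal]
      exact ⟨x.2, h⟩
  refine ⟨IsLocalRing.ResidueField O, inferInstance, ?_, ?_, (IsLocalRing.residue O).comp i, fun a => hres (i a)⟩
  · apply IsAlgClosed.of_exists_root
    intro f hf hirr
    have hsurj : Function.Surjective (IsLocalRing.residue O) := IsLocalRing.residue_surjective
    obtain ⟨g, hg, hdeg, hmon⟩ := Polynomial.lifts_and_natDegree_eq_and_monic
      (f := IsLocalRing.residue O) (p := f) (by
        rw [Polynomial.mem_lifts]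
        exact Polynomial.map_surjective _ hsurj f) hf
    have hd : 0 < g.natDegree := by
      rw [hdeg]
      exact hirr.natDegree_pos
    have hd2 : (g.map (algebraMap O ℂ)).degree ≠ 0 := by
      rw [hmon.degree_map (algebraMap O ℂ), Polynomial.degree_eq_natDegree hmon.ne_zero]
      exact_mod_cast hd.ne'
    obtain ⟨z, hz⟩ := IsAlgClosed.exists_root _ hd2
    rw [Polynomial.IsRoot, Polynomial.eval_map] at hz
    have hzO : z ∈ O := hint z ⟨g, hmon, hz⟩
    refine ⟨IsLocalRing.residue O ⟨z, hzO⟩, ?_⟩
    have h1 : Polynomial.eval (⟨z, hzO⟩ : O) g = 0 := by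
      apply Subtype.ext
      have h2 : algebraMap O ℂ (Polynomial.eval (⟨z, hzO⟩ : O) g) = 0 := by
        rw [← Polynomial.eval₂_at_apply]
        exact hz
      exact h2
    rw [← hg, Polynomial.eval_map, Polynomial.eval₂_at_apply, h1, map_zero]
  · rw [CharP.charP_iff_prime_eq_zero hpp]
    have := (hres (p : O)).1 (by simpa using hpO)
    simpa using this

end Pool.Agent.Q102.RR
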