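import Pool.Agent.Q17.RR.Stm2

/-!
# Project RR of helper17, job BRO: a valuation ring for a given reduction
-/

set_option autoImplicit false

open scoped Classical

noncomputable section

namespace Pool.Agent.Q102.RR

open Pool.Agent.Q17.RR

theorem nonunits_add {O : ValuationSubring ℂ} {x y : ℂ} (hx : x ∈ O.nonunits) (hy : y ∈ O.nonunits) :
    x + y ∈ O.nonunits := by
  rw [ValuationSubring.mem_nonunits_iff] at *
  exact lt_of_le_of_lt (O.valuation.map_add x y) (max_lt hx hy)

theorem nonunits_mul {O : ValuationSubring ℂ} {x y : ℂ} (hx : x ∈ O.nonunits) (hy : y ∈ O) :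
    x * y ∈ O.nonunits := by
  rw [ValuationSubring.mem_nonunits_iff] at *
  rw [map_mul]
  have h1 := (O.valuation_le_one_iff y).2 hy
  calc O.valuation x * O.valuation y ≤ O.valuation x * 1 := by gcongr
    _ < 1 := by rw [mul_one]; exact hx

theorem t_BRO : S_BRO := by
  intro p hp F _ _ red
  have hpp : p.Prime := hp.out
  have hprime : (RingHom.ker red).IsPrime := RingHom.ker_isPrime red
  have hcomap : (RingHom.ker red).comap (algebraMap ℤ (integralClosure ℤ ℂ)) = Ideal.span {(p : ℤ)} := by
    ext x
    rw [Ideal.mem_comap, RingHom.mem_ker, Ideal.mem_span_singleton]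
    have : red (algebraMap ℤ (integralClosure ℤ ℂ) x) = (x : F) := by
      simp
    rw [this]
    exact CharP.intCast_eq_zero_iff F p x
  have hmaxc : ((RingHom.ker red).comap (algebraMap ℤ (integralClosure ℤ ℂ))).IsMaximal := by
    rw [hcomap]
    exact PrincipalIdealRing.isMaximal_of_irreducible
      (Nat.prime_iff_prime_int.1 hpp).irreducible
  have hmax : (RingHom.ker red).IsMaximal :=
    Ideal.isMaximal_of_isIntegral_of_isMaximal_comap _ hmaxc
  let A : Subring ℂ := (integralClosure ℤ ℂ).toSubring
  let I : Ideal A := RingHom.ker (red : A →+* F)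
  have hI : I ≠ ⊤ := RingHom.ker_ne_top _
  obtain ⟨O, hAO, hIO⟩ := Ideal.image_subset_nonunits_valuationSubring I hI
  have hker : ∀ a : integralClosure ℤ ℂ, red a = 0 → (a : ℂ) ∈ O.nonunits := by
    intro a ha
    apply hIO
    exact ⟨a, ha, rfl⟩
  refine ⟨O, ?_, fun a => ⟨fun h => ?_, hker a⟩⟩
  · have := hker (p : integralClosure ℤ ℂ) (by rw [map_natCast]; exact CharP.cast_eq_zero F p)
    simpa using this
  · by_contra hne
    obtain ⟨y, x, hx, hxy⟩ := hmax.exists_inv (x := a) (by rwa [RingHom.mem_ker])
    have h1 : (1 : ℂ) = (a : ℂ) * y + x := by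
      have := congrArg (fun t : integralClosure ℤ ℂ => (t : ℂ)) hxy
      simp at this
      rw [← this]
      ring
    have h2 : (1 : ℂ) ∈ O.nonunits := by
      rw [h1]
      exact nonunits_add (nonunits_mul h (hAO y.2)) (hker x hx)
    rw [ValuationSubring.mem_nonunits_iff, map_one] at h2
    exact lt_irrefl _ h2

end Pool.Agent.Q102.RR
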